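import Pool.Agent.H12.SQ.Base
import Pool.Agent.H49.PPR.AA

/-!
Copy of helper49's module (Pool/Agent/H49/PPR/AA.lean, `AAA`), for `GoodT` instead of `Good`.
-/

set_option autoImplicit false

namespace Pool.Agent.H12.SQ

open Finset Pool.Agent.H37.PPC Pool.Agent.H37.PPD Pool.Agent.H37.PPE Pool.Agent.H49.PPR

/-- the trivial bound for small `x` -/
private theorem AA_triv (x0 : ℕ) : ∃ C : ℝ, 0 < C ∧ ∀ x : ℕ, 2 ≤ x → x < x0 → ∀ S : Finset ℕ,
    (∀ n ∈ S, 1 ≤ n ∧ n ≤ x) → (S.card : ℝ) ≤ C * x / Real.log x ^ (5 / 4 : ℝ) := by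
  refine ⟨(x0 : ℝ) ^ (5 / 4 : ℝ) + 1, by positivity, ?_⟩
  intro x hx hx0 S hS
  have hx1 : (1 : ℝ) < x := by exact_mod_cast (by omega : 1 < x)
  have hlx : 0 < Real.log x := Real.log_pos hx1
  have hc : S.card ≤ x := by
    have h1 : S ⊆ Icc 1 x := fun n hn => mem_Icc.2 (hS n hn)
    have h2 := card_le_card h1
    rwa [Nat.card_Icc, Nat.add_sub_cancel] at h2
  have hc' : (S.card : ℝ) ≤ x := by exact_mod_cast hc
  have hl : Real.log x ≤ x0 := by
    have h1 := Real.log_le_sub_one_of_pos (show (0 : ℝ) < x by linarith)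
    have h2 : (x : ℝ) ≤ x0 := by exact_mod_cast hx0.le
    linarith
  have hp : Real.log x ^ (5 / 4 : ℝ) ≤ (x0 : ℝ) ^ (5 / 4 : ℝ) + 1 := by
    have := Real.rpow_le_rpow hlx.le hl (show (0 : ℝ) ≤ 5 / 4 by norm_num)
    linarith
  have hlp : 0 < Real.log x ^ (5 / 4 : ℝ) := Real.rpow_pos_of_pos hlx _
  rw [le_div_iff₀ hlp]
  calc (S.card : ℝ) * Real.log x ^ (5 / 4 : ℝ) ≤ x * ((x0 : ℝ) ^ (5 / 4 : ℝ) + 1) :=
        mul_le_mul hc' hp hlp.le (by linarith)
    _ = _ := by ring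

/-- a prime factor `u` of `n²+n+1` is a square modulo a prime factor `p ≡ 1` mod `4` of `n` -/
private theorem AA_sq {n u p : ℕ} (hn : GoodT n) (hu : u.Prime) (huv : u ∣ n ^ 2 + n + 1)
    (hp : p.Prime) (hp4 : p % 4 = 1) (hpn : p ∣ n) : IsSquare (u : ZMod p) := by
  have : Fact p.Prime := ⟨hp⟩
  have hpu : p ≠ u := by
    rintro rfl
    have h1 : p ∣ n ^ 2 + n := by
      have h2 : n ^ 2 + n = n * (n + 1) := by ring
      rw [h2]
      exact hpn.mul_right _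
    have h2 := (Nat.dvd_add_right h1).1 huv
    exact hp.one_lt.ne' (Nat.dvd_one.1 h2)
  have hodd : Odd u := by
    rcases hu.eq_two_or_odd' with h | h
    · exfalso
      subst h
      have h1 : n ^ 2 + n = n * (n + 1) := by ring
      rw [h1] at huv
      have h2 : Even (n * (n + 1)) := Nat.even_mul_succ_self n
      have h3 := (Nat.dvd_add_right (even_iff_two_dvd.1 h2)).1 huv
      norm_num at h3
    · exact h
  have h1 : jacobiSym (p : ℤ) u ≠ -1 := fun h => hn.test hp hpn hu h huv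
  have hcop : (p : ℤ).gcd u = 1 := by
    rw [Int.gcd_natCast_natCast]
    exact (Nat.coprime_primes hp hu).2 hpu
  have h2 : jacobiSym (p : ℤ) u = 1 := by
    rcases jacobiSym.eq_one_or_neg_one hcop with h | h
    · exact h
    · exact absurd h h1
  have h3 : jacobiSym (u : ℤ) p = 1 := by
    rw [← jacobiSym.quadratic_reciprocity_one_mod_four hp4 hodd]
    exact h2
  have h4 : legendreSym p (u : ℤ) = 1 := by
    rw [jacobiSym.legendreSym.to_jacobiSym]
    exact h3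
  have h5 : (((u : ℕ) : ℤ) : ZMod p) ≠ 0 := by
    rw [Int.cast_natCast, Ne, ZMod.natCast_eq_zero_iff]
    intro h
    exact hpu ((Nat.prime_dvd_prime_iff_eq hp hu).1 h)
  have h6 := (legendreSym.eq_one_iff p h5).1 h4
  rwa [Int.cast_natCast] at h6

theorem AAA : ∃ C : ℝ, 0 < C ∧ ∀ x : ℕ, 2 ≤ x → ∀ S : Finset ℕ,
    (∀ n ∈ S, 1 ≤ n ∧ n ≤ x ∧ GoodT n ∧ ∃ u w : ℕ, u.Prime ∧ w.Prime ∧ u * w = n ^ 2 + n + 1 ∧
      (x : ℝ) ^ (7 / 8 : ℝ) < u ∧ u ≤ w) →
    (S.card : ℝ) ≤ C * x / Real.log x ^ (5 / 4 : ℝ) := by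
  obtain ⟨T0, hT0, C, hC, H⟩ := I1'
  obtain ⟨Ct, hCt, Ht⟩ := AA_triv (max 16 (2 ^ (2 * T0)))
  have hT : (0 : ℝ) < T0 := by exact_mod_cast hT0
  refine ⟨C * 5 * (4 * T0) ^ (9 / 4 : ℝ) + Ct, by positivity, fun x hx S hS => ?_⟩
  have hx2 : (2 : ℝ) ≤ x := by exact_mod_cast hx
  have hx0 : (0 : ℝ) < x := by linarith
  have hx1' : (1 : ℝ) ≤ x := by linarith
  have hlx : 0 < Real.log x := Real.log_pos (by linarith)
  have hlp : 0 < Real.log x ^ (5 / 4 : ℝ) := Real.rpow_pos_of_pos hlx _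
  have hxl : 0 ≤ (x : ℝ) / Real.log x ^ (5 / 4 : ℝ) := by positivity
  rcases lt_or_ge x (max 16 (2 ^ (2 * T0))) with hxT | hxT
  · have h1 := Ht x hx hxT S (fun n hn => ⟨(hS n hn).1, (hS n hn).2.1⟩)
    refine h1.trans ?_
    rw [mul_div_assoc, mul_div_assoc]
    exact mul_le_mul_of_nonneg_right (by
      have : 0 ≤ C * 5 * (4 * T0) ^ (9 / 4 : ℝ) := by positivity
      linarith) hxl
  · have hx16 : 16 ≤ x := (le_max_left _ _).trans hxT
    have hxc : 2 ^ (2 * T0) ≤ x := (le_max_right _ _).trans hxT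
    have hx16' : (16 : ℝ) ≤ x := by exact_mod_cast hx16
    obtain ⟨z, hz2, hzx, hxz⟩ := exists_root (2 * T0) x (by omega) hxc
    set Y : ℕ := ⌊(x : ℝ) ^ (7 / 8 : ℝ)⌋₊ with hY
    have hYle : (Y : ℝ) ≤ (x : ℝ) ^ (7 / 8 : ℝ) := Nat.floor_le (by positivity)
    have hYgt : (x : ℝ) ^ (7 / 8 : ℝ) < Y + 1 := Nat.lt_floor_add_one _
    have hx78 : 2 * (x : ℝ) ^ (1 / 2 : ℝ) ≤ (x : ℝ) ^ (7 / 8 : ℝ) := by
      have h1 : (x : ℝ) ^ (7 / 8 : ℝ) = (x : ℝ) ^ (3 / 8 : ℝ) * (x : ℝ) ^ (1 / 2 : ℝ) := by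
        rw [← Real.rpow_add hx0]; norm_num
      have h2 : (2 : ℝ) ≤ (x : ℝ) ^ (3 / 8 : ℝ) := by
        calc (2 : ℝ) = (16 : ℝ) ^ (1 / 4 : ℝ) := by
              rw [show (16 : ℝ) = 2 ^ (4 : ℝ) by norm_num, ← Real.rpow_mul (by norm_num)]
              norm_num
          _ ≤ (x : ℝ) ^ (1 / 4 : ℝ) := Real.rpow_le_rpow (by norm_num) hx16' (by norm_num)
          _ ≤ (x : ℝ) ^ (3 / 8 : ℝ) := Real.rpow_le_rpow_of_exponent_le hx1' (by norm_num)
      rw [h1]
      exact mul_le_mul_of_nonneg_right h2 (by positivity)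
    have hx12 : (4 : ℝ) ≤ (x : ℝ) ^ (1 / 2 : ℝ) := by
      calc (4 : ℝ) = (16 : ℝ) ^ (1 / 2 : ℝ) := by
            rw [show (16 : ℝ) = 4 ^ (2 : ℝ) by norm_num, ← Real.rpow_mul (by norm_num)]
            norm_num
        _ ≤ (x : ℝ) ^ (1 / 2 : ℝ) := Real.rpow_le_rpow (by norm_num) hx16' (by norm_num)
    have hYx : (x : ℝ) ^ (1 / 2 : ℝ) ≤ Y := by linarith
    have hY1 : (1 : ℝ) ≤ Y := by linarith
    have hzY : z ^ T0 ≤ Y := by
      have h1 : ((z : ℝ) ^ T0) ^ 2 ≤ x := by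
        rw [← pow_mul, mul_comm T0 2]
        exact_mod_cast hzx
      have h2 : (z : ℝ) ^ T0 ≤ (x : ℝ) ^ (1 / 2 : ℝ) := by
        rw [← Real.sqrt_eq_rpow]
        exact Real.le_sqrt_of_sq_le h1
      have h3 : ((z ^ T0 : ℕ) : ℝ) ≤ Y := by
        push_cast
        exact h2.trans hYx
      exact_mod_cast h3
    -- the number of dyadic steps
    set J : ℕ := ⌈Real.log x / Real.log 2⌉₊ with hJ
    have hl2 : 0 < Real.log 2 := Real.log_pos (by norm_num)
    have hl2' := Real.log_two_gt_d9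
    have hJ1 : x ≤ Y * 2 ^ J := by
      have h1 : Real.log x ≤ J * Real.log 2 := by
        have := Nat.le_ceil (Real.log x / Real.log 2)
        rwa [div_le_iff₀ hl2] at this
      have h2 : (x : ℝ) ≤ 2 ^ J := by
        rw [← Real.log_pow] at h1
        exact (Real.log_le_log_iff (by positivity) (by positivity)).1 h1
      have h3 : x ≤ 2 ^ J := by exact_mod_cast h2
      have h4 : 1 ≤ Y := by exact_mod_cast hY1
      exact h3.trans (Nat.le_mul_of_pos_left _ h4)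
    have hlog1 : Real.log 2 ≤ Real.log x := Real.log_le_log (by norm_num) hx2
    have hJ2 : (J : ℝ) + 1 ≤ 5 * Real.log x := by
      have h3 : (J : ℝ) < Real.log x / Real.log 2 + 1 :=
        Nat.ceil_lt_add_one (div_nonneg hlx.le hl2.le)
      have h4 : Real.log x / Real.log 2 ≤ 2 * Real.log x := by
        rw [div_le_iff₀ hl2]
        nlinarith
      nlinarith
    have h1 := H x Y J z hz2 hzY hJ1 S ?_
    · have h2 := exp_ll_le (by omega : 1 ≤ 2 * T0) hz2 hzx hxz (9 / 4) (by norm_num)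
      have h3 : Real.exp (-((9 / 4) * ll z)) ≤
          (4 * T0) ^ (9 / 4 : ℝ) / (Real.log x * Real.log x ^ (5 / 4 : ℝ)) := by
        rw [show -((9 / 4 : ℝ) * ll z) = -(9 / 4) * ll z by ring]
        refine h2.trans (le_of_eq ?_)
        push_cast
        congr 1
        · congr 1
          ring
        · rw [show (9 / 4 : ℝ) = 1 + 5 / 4 by norm_num, Real.rpow_add hlx, Real.rpow_one]
      calc (S.card : ℝ) ≤ C * (J + 1) * x * Real.exp (-((9 / 4) * ll z)) := h1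
        _ ≤ C * (5 * Real.log x) * x *
            ((4 * T0) ^ (9 / 4 : ℝ) / (Real.log x * Real.log x ^ (5 / 4 : ℝ))) := by
            refine mul_le_mul ?_ h3 (Real.exp_pos _).le (by positivity)
            refine mul_le_mul_of_nonneg_right ?_ hx0.le
            exact mul_le_mul_of_nonneg_left hJ2 hC.le
        _ = C * 5 * (4 * T0) ^ (9 / 4 : ℝ) * (x / Real.log x ^ (5 / 4 : ℝ)) := by
            field_simp
        _ ≤ C * 5 * (4 * T0) ^ (9 / 4 : ℝ) * (x / Real.log x ^ (5 / 4 : ℝ)) +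
            Ct * (x / Real.log x ^ (5 / 4 : ℝ)) := by
            have := mul_nonneg hCt.le hxl
            linarith
        _ = _ := by ring
    · intro n hn
      obtain ⟨hn1, hnx, hng, u, w, hu, hw, huw, hux, huw'⟩ := hS n hn
      have hYu : Y < u := by
        have : (Y : ℝ) < u := lt_of_le_of_lt hYle hux
        exact_mod_cast this
      refine ⟨hn1, hnx, u, w, huw, hYu, huw', ?_, ?_⟩
      · intro p hp hpd
        rw [mem_pr] at hp
        have hzz : z ≤ z ^ T0 := Nat.le_self_pow (by omega) z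
        rcases (Nat.Prime.dvd_mul hp.2).1 hpd with h | h
        · have := (Nat.prime_dvd_prime_iff_eq hp.2 hu).1 h
          omega
        · have := (Nat.prime_dvd_prime_iff_eq hp.2 hw).1 h
          omega
      · intro p hp hp4 hpn
        rw [mem_pr] at hp
        exact AA_sq hng hu ⟨w, huw.symm⟩ hp.2 hp4 hpn


end Pool.Agent.H12.SQ
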