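import Pool.Agent.H37.PPD.RS

/-!
The predicate `GoodT`: Mann's test for all primes dividing `n` and `n² + n + 1`.
-/

set_option autoImplicit false

namespace Pool.Agent.H12.SQ

open Finset Pool.Agent.H37.PPC Pool.Agent.H37.PPD

/-- `n ≥ 2` is not a square and no prime `q ∣ n²+n+1` has `(p/q) = -1` for a prime `p ∣ n`. -/
def GoodT (n : ℕ) : Prop :=
  2 ≤ n ∧ (∀ p q : ℕ, p.Prime → p ∣ n → q.Prime → jacobiSym (p : ℤ) q = -1 →
    ¬ q ∣ n ^ 2 + n + 1) ∧ ¬ IsSquare n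

theorem GoodT.test {n p q : ℕ} (hn : GoodT n) (hp : p.Prime) (hpn : p ∣ n) (hq : q.Prime)
    (hj : jacobiSym (p : ℤ) q = -1) : ¬ q ∣ n ^ 2 + n + 1 := hn.2.1 p q hp hpn hq hj

theorem good_mod4 {n p : ℕ} (hn : GoodT n) (h4 : n % 4 = 1 ∨ n % 4 = 2) (hp : p.Prime)
    (hpn : p ∣ n) : p % 4 ≠ 3 := by
  intro hp3
  set v := n ^ 2 + n + 1 with hv
  have hv4 : v % 4 = 3 := by
    have h1 : v % 4 = ((n % 4) ^ 2 + n % 4 + 1) % 4 := by
      rw [hv]
      simp [Nat.add_mod, Nat.pow_mod]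
    rw [h1]
    rcases h4 with h | h <;> rw [h] <;> norm_num
  have hv0 : v ≠ 0 := by omega
  have hq1 : ∀ q ∈ v.primeFactorsList, jacobiSym (p : ℤ) q = 1 := by
    intro q hq
    have hqp : q.Prime := Nat.prime_of_mem_primeFactorsList hq
    have hqv : q ∣ v := Nat.dvd_of_mem_primeFactorsList hq
    have hne : q ≠ p := by
      intro h
      subst h
      have h1 : q ∣ n ^ 2 + n := Dvd.dvd.add (dvd_pow hpn (by norm_num)) hpn
      have h3 : q ∣ 1 := (Nat.dvd_add_right h1).1 hqv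
      exact hqp.one_lt.ne' (Nat.dvd_one.1 h3)
    rcases jacobiSym.eq_one_or_neg_one (a := (p : ℤ)) (b := q) (by
      rw [Int.gcd_natCast_natCast]
      exact (Nat.coprime_primes hp hqp).2 (Ne.symm hne)) with h | h
    · exact h
    · exact absurd hqv (hn.test hp hpn hqp h)
  have hJ1 : jacobiSym (p : ℤ) v = 1 := by
    have h1 : jacobiSym (p : ℤ) v.primeFactorsList.prod
        = (v.primeFactorsList.map fun q => jacobiSym (p : ℤ) q).prod :=
      jacobiSym.list_prod_right fun q hq => (Nat.prime_of_mem_primeFactorsList hq).ne_zero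
    rw [Nat.prod_primeFactorsList hv0] at h1
    rw [h1]
    apply List.prod_eq_one
    intro x hx
    obtain ⟨q, hq, rfl⟩ := List.mem_map.1 hx
    exact hq1 q hq
  have hJ2 := jacobiSym.quadratic_reciprocity_three_mod_four hp3 hv4
  have hJ3 : jacobiSym (v : ℤ) p = 1 := by
    have h1 : ((v : ℕ) : ℤ) % (p : ℕ) = (1 : ℤ) % (p : ℕ) := by
      have h2 : (n ^ 2 + n + 1) % p = 1 % p := by
        have h3 : p ∣ n ^ 2 + n := Dvd.dvd.add (dvd_pow hpn (by norm_num)) hpn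
        obtain ⟨k, hk⟩ := h3
        rw [hk, Nat.mul_add_mod]
      have h4 : ((v : ℕ) : ℤ) % (p : ℕ) = ((v % p : ℕ) : ℤ) := by push_cast; rfl
      rw [h4, hv, h2]
      push_cast
      rfl
    rw [jacobiSym.mod_left' h1, jacobiSym.one_left]
  rw [hJ1, hJ3] at hJ2
  norm_num at hJ2

end Pool.Agent.H12.SQ
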