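import Pool.Agent.H12.SQ.G2
import Pool.Agent.H37.PPD.SU
/-!
Copy of helper37's module, for the predicate `GoodT` instead of `Good`.
PPD CA: the triple sums without exceptional primes.

p = least prime factor of n, q = least prime factor of v = n²+n+1.
`case_none`: only p, q below y: count_gen2 with a = b = c = y+1, P = {p}, Q = {q} (for each pair (p,q)):
   count ≤ K (x/(pq)) exp(-2 ll y + C) [ll (y+1) ≥ ll y, (…)(ll y - ll(y+1)) is ≥ -C], and
   exp(-2 ll y) ≤ exp(-(5/4) ll y) exp(-(3/8) ll p) exp(-(3/8) ll q) (p, q ≤ y; careful with ll 2 < 0: constants);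
   sum over p, q: sum_rpow (3/8) twice.
`case_T`: t > p, q: t ∣ n or t ∣ v, a = b = c = t, (P,Q) = ({p,t},{q}) or ({p},{q,t}):
   exponent 2 ll t + (5/4)(ll y - ll t) (A0 Q t t = ∅), exp(-(3/4) ll t) ≤ C exp(-(1/4)(ll p + ll q + ll t)).
S is covered by the sets S_{p,q} (resp. S_{p,q,t}); use Finset.card_biUnion_le or card_eq_sum_card_fiberwise.
-/

set_option autoImplicit false

namespace Pool.Agent.H12.SQ

open Pool.Agent.H37.PPC Pool.Agent.H37.PPD

open Finset Pool.Agent.H37.PPC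

private theorem CA_cover {ι : Type*} (T : Finset ι) (S : Finset ℕ) (f : ι → ℕ → Prop)
    (g : ι → ℝ) (h : ∀ n ∈ S, ∃ i ∈ T, f i n)
    (hb : ∀ i ∈ T, ∀ S' ⊆ S, (∀ n ∈ S', f i n) → (S'.card : ℝ) ≤ g i) :
    (S.card : ℝ) ≤ ∑ i ∈ T, g i := by
  classical
  have h1 : S ⊆ T.biUnion fun i => S.filter (f i) := by
    intro n hn
    obtain ⟨i, hi, hf⟩ := h n hn
    exact mem_biUnion.2 ⟨i, hi, mem_filter.2 ⟨hn, hf⟩⟩
  have h2 : (S.card : ℝ) ≤ ∑ i ∈ T, ((S.filter (f i)).card : ℝ) := by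
    have h3 := (card_le_card h1).trans card_biUnion_le
    exact_mod_cast h3
  refine h2.trans (sum_le_sum fun i hi => ?_)
  exact hb i hi _ (filter_subset _ _) fun n hn => (mem_filter.1 hn).2

private theorem CA_ll_mono {a b : ℕ} (ha : 2 ≤ a) (hab : a ≤ b) : ll a ≤ ll b := by
  unfold ll
  have h1 : (1 : ℝ) < a := by exact_mod_cast (by omega : 1 < a)
  have h2 : (a : ℝ) ≤ b := by exact_mod_cast hab
  exact Real.log_le_log (Real.log_pos h1) (Real.log_le_log (by linarith) h2)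

private theorem CA_rs0 (Q : Finset ℕ) (a : ℕ) : rs (A0 Q a a) = 0 := by
  simp [rs, A0, pr]

private theorem CA_rs1 (Q : Finset ℕ) (a : ℕ) : rs (A1 Q a a) = 0 := by
  simp [rs, A1, pr]

private theorem CA_two {q n : ℕ} (hq : q.Prime) (h : q ∣ n ^ 2 + n + 1) : 2 < q := by
  rcases hq.two_le.lt_or_eq with h2 | h2
  · exact h2
  · exfalso
    rw [← h2] at h
    have h3 : Even (n ^ 2 + n) := by
      have : n ^ 2 + n = n * (n + 1) := by ring
      rw [this]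
      exact Nat.even_mul_succ_self n
    obtain ⟨m, hm⟩ := h3
    omega

private noncomputable def CA_w (θ : ℝ) (p : ℕ) : ℝ := Real.exp (-θ * ll p) / p

private theorem CA_w_nonneg (θ : ℝ) (p : ℕ) : 0 ≤ CA_w θ p :=
  div_nonneg (Real.exp_pos _).le (Nat.cast_nonneg _)

private theorem CA_mem {p y : ℕ} (hp : p.Prime) (h : p ≤ y) : p ∈ pr 2 (y + 1) :=
  mem_pr.2 ⟨⟨hp.two_le, by omega⟩, hp⟩

private theorem CA_sum3 (θ C D : ℝ) (y : ℕ) (hC : ∑ p ∈ pr 2 (y + 1), CA_w θ p ≤ C)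
    (hD : 0 ≤ D) :
    ∑ i ∈ pr 2 (y + 1) ×ˢ (pr 2 (y + 1) ×ˢ pr 2 (y + 1)),
      D * (CA_w θ i.1 * (CA_w θ i.2.1 * CA_w θ i.2.2)) ≤ D * C ^ 3 := by
  rw [← mul_sum]
  refine mul_le_mul_of_nonneg_left ?_ hD
  rw [sum_product]
  simp only [sum_product, ← mul_sum, ← sum_mul]
  have h0 : 0 ≤ ∑ p ∈ pr 2 (y + 1), CA_w θ p := sum_nonneg fun p _ => CA_w_nonneg θ p
  calc _ = (∑ p ∈ pr 2 (y + 1), CA_w θ p) ^ 3 := by ring
    _ ≤ C ^ 3 := pow_le_pow_left₀ h0 hC 3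

private theorem CA_sum2 (θ C D : ℝ) (y : ℕ) (hC : ∑ p ∈ pr 2 (y + 1), CA_w θ p ≤ C)
    (hD : 0 ≤ D) :
    ∑ i ∈ pr 2 (y + 1) ×ˢ pr 2 (y + 1), D * (CA_w θ i.1 * CA_w θ i.2) ≤ D * C ^ 2 := by
  rw [← mul_sum]
  refine mul_le_mul_of_nonneg_left ?_ hD
  rw [sum_product]
  simp only [← mul_sum, ← sum_mul]
  have h0 : 0 ≤ ∑ p ∈ pr 2 (y + 1), CA_w θ p := sum_nonneg fun p _ => CA_w_nonneg θ p
  calc _ = (∑ p ∈ pr 2 (y + 1), CA_w θ p) ^ 2 := by ring
    _ ≤ C ^ 2 := pow_le_pow_left₀ h0 hC 2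

theorem case_none : ∃ K : ℝ, 0 < K ∧ ∃ s : ℕ, 0 < s ∧ ∀ x y : ℕ, 2 ≤ y → y ^ (s + 3) ≤ x →
    ∀ S : Finset ℕ, (∀ n ∈ S, 1 ≤ n ∧ n ≤ x ∧ GoodT n ∧
      ∃ p q : ℕ, p.Prime ∧ q.Prime ∧ p ≤ y ∧ q ≤ y ∧ p ∣ n ∧ q ∣ n ^ 2 + n + 1 ∧
        (∀ l ∈ pr 2 (y + 1), l ≠ p → ¬ l ∣ n) ∧ (∀ l ∈ pr 2 (y + 1), l ≠ q → ¬ l ∣ n ^ 2 + n + 1)) →
    (S.card : ℝ) ≤ K * x * Real.exp (-(5 / 4) * ll y) := by
  obtain ⟨K, hK, s, hs, hcount⟩ := count_gen2
  obtain ⟨C, hC, hsum⟩ := sum_rpow (3 / 8) (by norm_num)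
  refine ⟨K * C ^ 2, by positivity, s, hs, fun x y hy hxy S hS => ?_⟩
  have h1 := CA_cover (pr 2 (y + 1) ×ˢ pr 2 (y + 1)) S
    (fun i n => i.1 ∣ n ∧ i.2 ∣ n ^ 2 + n + 1 ∧ (∀ l ∈ pr 2 (y + 1), l ≠ i.1 → ¬ l ∣ n) ∧
      (∀ l ∈ pr 2 (y + 1), l ≠ i.2 → ¬ l ∣ n ^ 2 + n + 1))
    (fun i => (K * x * Real.exp (-(5 / 4) * ll y)) * (CA_w (3 / 8) i.1 * CA_w (3 / 8) i.2))
    (fun n hn => by
      obtain ⟨_, _, _, p, q, hp, hq, hpy, hqy, hpn, hqn, h3, h4⟩ := hS n hn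
      exact ⟨(p, q), mem_product.2 ⟨CA_mem hp hpy, CA_mem hq hqy⟩, hpn, hqn, h3, h4⟩)
    (by
      rintro ⟨p, q⟩ hpq S' hS' hf
      obtain ⟨hp', hq'⟩ := mem_product.1 hpq
      simp only at hp' hq' hf ⊢
      obtain ⟨⟨hp2, hpy⟩, hp⟩ := mem_pr.1 hp'
      obtain ⟨⟨hq2, hqy⟩, hq⟩ := mem_pr.1 hq'
      have hR : 0 ≤ (K * x * Real.exp (-(5 / 4) * ll y)) * (CA_w (3 / 8) p * CA_w (3 / 8) q) := by
        have := CA_w_nonneg (3 / 8) p
        have := CA_w_nonneg (3 / 8) q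
        positivity
      rcases S'.eq_empty_or_nonempty with h0 | ⟨n₀, hn₀⟩
      · rw [h0, card_empty, Nat.cast_zero]; exact hR
      have hq3 : 2 < q := CA_two hq (hf n₀ hn₀).2.1
      have h2 := hcount x y hy hxy {p} {q} (singleton_nonempty _) (singleton_nonempty _)
        (by simpa using hp) (by simpa using ⟨hq, hq3⟩) (by simp) (y + 1) (y + 1) (y + 1)
        (by omega) (by omega) le_rfl le_rfl le_rfl
        (by simp only [mem_singleton, forall_eq]; omega)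
        (by simp only [mem_singleton, forall_eq]; omega) S'
        (fun n hn => by
          obtain ⟨h5, h6, h7, h8⟩ := hf n hn
          obtain ⟨h9, h10, h11, _⟩ := hS n (hS' hn)
          refine ⟨h9, h10, h11, by simpa using h5, by simpa using h6, ?_, ?_⟩
          · intro l hl hlp
            exact h7 l hl (by simpa using hlp)
          · intro l hl hlp
            exact h8 l hl (by simpa using hlp))
      refine h2.trans ?_
      rw [CA_rs0, CA_rs1, prod_singleton, prod_singleton, card_singleton, card_singleton]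
      have e1 : ll y ≤ ll (y + 1) := CA_ll_mono hy (by omega)
      have e2 : ll p ≤ ll y := CA_ll_mono hp2 (by omega)
      have e3 : ll q ≤ ll y := CA_ll_mono hq2 (by omega)
      have e4 : Real.exp (-(ll (y + 1) + ll (y + 1) + 0 + 2 * 0 +
          (2 - (1 / 2) ^ 1 - (1 / 2) ^ 1) * (ll y - ll (y + 1)))) ≤
          Real.exp (-(5 / 4) * ll y) * (Real.exp (-(3 / 8) * ll p) *
            Real.exp (-(3 / 8) * ll q)) := by
        rw [← Real.exp_add, ← Real.exp_add]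
        apply Real.exp_le_exp.2
        linarith
      have hp0 : (0 : ℝ) < p := by exact_mod_cast hp.pos
      have hq0 : (0 : ℝ) < q := by exact_mod_cast hq.pos
      calc K * (x / ((p * q : ℕ) : ℝ)) * Real.exp (-(ll (y + 1) + ll (y + 1) + 0 + 2 * 0 +
          (2 - (1 / 2) ^ 1 - (1 / 2) ^ 1) * (ll y - ll (y + 1))))
          ≤ K * (x / ((p * q : ℕ) : ℝ)) * (Real.exp (-(5 / 4) * ll y) *
            (Real.exp (-(3 / 8) * ll p) * Real.exp (-(3 / 8) * ll q))) :=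
            mul_le_mul_of_nonneg_left e4 (by positivity)
        _ = _ := by
            unfold CA_w
            push_cast
            field_simp)
  refine h1.trans ((CA_sum2 (3 / 8) C _ y (hsum (y + 1)) (by positivity)).trans (le_of_eq ?_))
  ring

theorem case_T0 : ∃ K : ℝ, 0 < K ∧ ∃ s : ℕ, 0 < s ∧ ∀ x y : ℕ, 2 ≤ y → y ^ (s + 3) ≤ x →
    ∀ S : Finset ℕ, (∀ n ∈ S, 1 ≤ n ∧ n ≤ x ∧ GoodT n ∧
      ∃ p q t : ℕ, p.Prime ∧ q.Prime ∧ t.Prime ∧ p < t ∧ q < t ∧ t ≤ y ∧ p ∣ n ∧ t ∣ n ∧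
        q ∣ n ^ 2 + n + 1 ∧ (∀ l ∈ pr 2 t, l ≠ p → ¬ l ∣ n) ∧
        (∀ l ∈ pr 2 t, l ≠ q → ¬ l ∣ n ^ 2 + n + 1)) →
    (S.card : ℝ) ≤ K * x * Real.exp (-(5 / 4) * ll y) := by
  obtain ⟨K, hK, s, hs, hcount⟩ := count_gen2
  obtain ⟨C, hC, hsum⟩ := sum_rpow (1 / 4) (by norm_num)
  refine ⟨K * C ^ 3, by positivity, s, hs, fun x y hy hxy S hS => ?_⟩
  have h1 := CA_cover (pr 2 (y + 1) ×ˢ (pr 2 (y + 1) ×ˢ pr 2 (y + 1))) S
    (fun i n => i.1 < i.2.2 ∧ i.2.1 < i.2.2 ∧ i.1 ∣ n ∧ i.2.2 ∣ n ∧ i.2.1 ∣ n ^ 2 + n + 1 ∧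
      (∀ l ∈ pr 2 i.2.2, l ≠ i.1 → ¬ l ∣ n) ∧
      (∀ l ∈ pr 2 i.2.2, l ≠ i.2.1 → ¬ l ∣ n ^ 2 + n + 1))
    (fun i => (K * x * Real.exp (-(5 / 4) * ll y)) *
      (CA_w (1 / 4) i.1 * (CA_w (1 / 4) i.2.1 * CA_w (1 / 4) i.2.2)))
    (fun n hn => by
      obtain ⟨_, _, _, p, q, t, hp, hq, ht, hpt, hqt, hty, hpn, htn, hqn, h3, h4⟩ := hS n hn
      exact ⟨(p, (q, t)), mem_product.2 ⟨CA_mem hp (hpt.le.trans hty), mem_product.2
        ⟨CA_mem hq (hqt.le.trans hty), CA_mem ht hty⟩⟩, hpt, hqt, hpn, htn, hqn, h3, h4⟩)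
    (by
      rintro ⟨p, q, t⟩ hpq S' hS' hf
      obtain ⟨hp', hqt'⟩ := mem_product.1 hpq
      obtain ⟨hq', ht'⟩ := mem_product.1 hqt'
      simp only at hp' hq' ht' hf ⊢
      obtain ⟨⟨hp2, hpy⟩, hp⟩ := mem_pr.1 hp'
      obtain ⟨⟨hq2, hqy⟩, hq⟩ := mem_pr.1 hq'
      obtain ⟨⟨ht2, hty⟩, ht⟩ := mem_pr.1 ht'
      have hR : 0 ≤ (K * x * Real.exp (-(5 / 4) * ll y)) *
          (CA_w (1 / 4) p * (CA_w (1 / 4) q * CA_w (1 / 4) t)) := by
        have := CA_w_nonneg (1 / 4) p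
        have := CA_w_nonneg (1 / 4) q
        have := CA_w_nonneg (1 / 4) t
        positivity
      rcases S'.eq_empty_or_nonempty with h0 | ⟨n₀, hn₀⟩
      · rw [h0, card_empty, Nat.cast_zero]; exact hR
      obtain ⟨hpt, hqt, _, _, hqn₀, _, _⟩ := hf n₀ hn₀
      have hq3 : 2 < q := CA_two hq hqn₀
      have hne : p ≠ t := hpt.ne
      have h2 := hcount x y hy hxy {p, t} {q} (insert_nonempty _ _) (singleton_nonempty _)
        (by
          intro r hr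
          rcases mem_insert.1 hr with rfl | hr
          · exact hp
          · rw [mem_singleton.1 hr]; exact ht)
        (by simpa using ⟨hq, hq3⟩) (by rw [card_pair hne, card_singleton]) t t t
        ht2 ht2 le_rfl le_rfl (by omega)
        (by
          intro r hr
          rcases mem_insert.1 hr with rfl | hr
          · omega
          · rw [mem_singleton.1 hr]; omega)
        (by simp only [mem_singleton, forall_eq]; omega) S'
        (fun n hn => by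
          obtain ⟨_, _, h4, h5, h6, h7, h8⟩ := hf n hn
          obtain ⟨h9, h10, h11, _⟩ := hS n (hS' hn)
          refine ⟨h9, h10, h11, ?_, by simpa using h6, ?_, ?_⟩
          · intro r hr
            rcases mem_insert.1 hr with rfl | hr
            · exact h4
            · rw [mem_singleton.1 hr]; exact h5
          · intro l hl hlp
            exact h7 l hl (fun h => hlp (by rw [h]; exact mem_insert_self _ _))
          · intro l hl hlp
            exact h8 l hl (by simpa using hlp))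
      refine h2.trans ?_
      rw [CA_rs0, CA_rs1, prod_pair hne, prod_singleton, card_pair hne, card_singleton]
      have e1 : ll t ≤ ll y := CA_ll_mono ht2 (by omega)
      have e2 : ll p ≤ ll t := CA_ll_mono hp2 hpt.le
      have e3 : ll q ≤ ll t := CA_ll_mono hq2 hqt.le
      have e4 : Real.exp (-(ll t + ll t + 0 + 2 * 0 +
          (2 - (1 / 2) ^ 2 - (1 / 2) ^ 1) * (ll y - ll t))) ≤
          Real.exp (-(5 / 4) * ll y) * (Real.exp (-(1 / 4) * ll p) *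
            (Real.exp (-(1 / 4) * ll q) * Real.exp (-(1 / 4) * ll t))) := by
        rw [← Real.exp_add, ← Real.exp_add, ← Real.exp_add]
        apply Real.exp_le_exp.2
        linarith
      have hp0 : (0 : ℝ) < p := by exact_mod_cast hp.pos
      have hq0 : (0 : ℝ) < q := by exact_mod_cast hq.pos
      have ht0 : (0 : ℝ) < t := by exact_mod_cast ht.pos
      calc K * (x / ((p * t * q : ℕ) : ℝ)) * Real.exp (-(ll t + ll t + 0 + 2 * 0 +
          (2 - (1 / 2) ^ 2 - (1 / 2) ^ 1) * (ll y - ll t)))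
          ≤ K * (x / ((p * t * q : ℕ) : ℝ)) * (Real.exp (-(5 / 4) * ll y) *
            (Real.exp (-(1 / 4) * ll p) * (Real.exp (-(1 / 4) * ll q) *
              Real.exp (-(1 / 4) * ll t)))) :=
            mul_le_mul_of_nonneg_left e4 (by positivity)
        _ = _ := by
            unfold CA_w
            push_cast
            field_simp)
  refine h1.trans ((CA_sum3 (1 / 4) C _ y (hsum (y + 1)) (by positivity)).trans (le_of_eq ?_))
  ring

theorem case_T1 : ∃ K : ℝ, 0 < K ∧ ∃ s : ℕ, 0 < s ∧ ∀ x y : ℕ, 2 ≤ y → y ^ (s + 3) ≤ x →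
    ∀ S : Finset ℕ, (∀ n ∈ S, 1 ≤ n ∧ n ≤ x ∧ GoodT n ∧
      ∃ p q t : ℕ, p.Prime ∧ q.Prime ∧ t.Prime ∧ p < t ∧ q < t ∧ t ≤ y ∧ p ∣ n ∧
        q ∣ n ^ 2 + n + 1 ∧ t ∣ n ^ 2 + n + 1 ∧ (∀ l ∈ pr 2 t, l ≠ p → ¬ l ∣ n) ∧
        (∀ l ∈ pr 2 t, l ≠ q → ¬ l ∣ n ^ 2 + n + 1)) →
    (S.card : ℝ) ≤ K * x * Real.exp (-(5 / 4) * ll y) := by
  obtain ⟨K, hK, s, hs, hcount⟩ := count_gen2
  obtain ⟨C, hC, hsum⟩ := sum_rpow (1 / 4) (by norm_num)
  refine ⟨K * C ^ 3, by positivity, s, hs, fun x y hy hxy S hS => ?_⟩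
  have h1 := CA_cover (pr 2 (y + 1) ×ˢ (pr 2 (y + 1) ×ˢ pr 2 (y + 1))) S
    (fun i n => i.1 < i.2.2 ∧ i.2.1 < i.2.2 ∧ i.1 ∣ n ∧ i.2.1 ∣ n ^ 2 + n + 1 ∧
      i.2.2 ∣ n ^ 2 + n + 1 ∧ (∀ l ∈ pr 2 i.2.2, l ≠ i.1 → ¬ l ∣ n) ∧
      (∀ l ∈ pr 2 i.2.2, l ≠ i.2.1 → ¬ l ∣ n ^ 2 + n + 1))
    (fun i => (K * x * Real.exp (-(5 / 4) * ll y)) *
      (CA_w (1 / 4) i.1 * (CA_w (1 / 4) i.2.1 * CA_w (1 / 4) i.2.2)))
    (fun n hn => by
      obtain ⟨_, _, _, p, q, t, hp, hq, ht, hpt, hqt, hty, hpn, hqn, htn, h3, h4⟩ := hS n hn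
      exact ⟨(p, (q, t)), mem_product.2 ⟨CA_mem hp (hpt.le.trans hty), mem_product.2
        ⟨CA_mem hq (hqt.le.trans hty), CA_mem ht hty⟩⟩, hpt, hqt, hpn, hqn, htn, h3, h4⟩)
    (by
      rintro ⟨p, q, t⟩ hpq S' hS' hf
      obtain ⟨hp', hqt'⟩ := mem_product.1 hpq
      obtain ⟨hq', ht'⟩ := mem_product.1 hqt'
      simp only at hp' hq' ht' hf ⊢
      obtain ⟨⟨hp2, hpy⟩, hp⟩ := mem_pr.1 hp'
      obtain ⟨⟨hq2, hqy⟩, hq⟩ := mem_pr.1 hq'
      obtain ⟨⟨ht2, hty⟩, ht⟩ := mem_pr.1 ht'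
      have hR : 0 ≤ (K * x * Real.exp (-(5 / 4) * ll y)) *
          (CA_w (1 / 4) p * (CA_w (1 / 4) q * CA_w (1 / 4) t)) := by
        have := CA_w_nonneg (1 / 4) p
        have := CA_w_nonneg (1 / 4) q
        have := CA_w_nonneg (1 / 4) t
        positivity
      rcases S'.eq_empty_or_nonempty with h0 | ⟨n₀, hn₀⟩
      · rw [h0, card_empty, Nat.cast_zero]; exact hR
      obtain ⟨hpt, hqt, _, hqn₀, htn₀, _, _⟩ := hf n₀ hn₀
      have hq3 : 2 < q := CA_two hq hqn₀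
      have ht3 : 2 < t := CA_two ht htn₀
      have hne : q ≠ t := hqt.ne
      have h2 := hcount x y hy hxy {p} {q, t} (singleton_nonempty _) (insert_nonempty _ _)
        (by simpa using hp)
        (by
          intro r hr
          rcases mem_insert.1 hr with rfl | hr
          · exact ⟨hq, hq3⟩
          · rw [mem_singleton.1 hr]; exact ⟨ht, ht3⟩)
        (by rw [card_pair hne, card_singleton]) t t t
        ht2 ht2 le_rfl le_rfl (by omega)
        (by simp only [mem_singleton, forall_eq]; omega)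
        (by
          intro r hr
          rcases mem_insert.1 hr with rfl | hr
          · omega
          · rw [mem_singleton.1 hr]; omega) S'
        (fun n hn => by
          obtain ⟨_, _, h4, h5, h6, h7, h8⟩ := hf n hn
          obtain ⟨h9, h10, h11, _⟩ := hS n (hS' hn)
          refine ⟨h9, h10, h11, by simpa using h4, ?_, ?_, ?_⟩
          · intro r hr
            rcases mem_insert.1 hr with rfl | hr
            · exact h5
            · rw [mem_singleton.1 hr]; exact h6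
          · intro l hl hlp
            exact h7 l hl (by simpa using hlp)
          · intro l hl hlp
            exact h8 l hl (fun h => hlp (by rw [h]; exact mem_insert_self _ _)))
      refine h2.trans ?_
      rw [CA_rs0, CA_rs1, prod_pair hne, prod_singleton, card_pair hne, card_singleton]
      have e1 : ll t ≤ ll y := CA_ll_mono ht2 (by omega)
      have e2 : ll p ≤ ll t := CA_ll_mono hp2 hpt.le
      have e3 : ll q ≤ ll t := CA_ll_mono hq2 hqt.le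
      have e4 : Real.exp (-(ll t + ll t + 0 + 2 * 0 +
          (2 - (1 / 2) ^ 1 - (1 / 2) ^ 2) * (ll y - ll t))) ≤
          Real.exp (-(5 / 4) * ll y) * (Real.exp (-(1 / 4) * ll p) *
            (Real.exp (-(1 / 4) * ll q) * Real.exp (-(1 / 4) * ll t))) := by
        rw [← Real.exp_add, ← Real.exp_add, ← Real.exp_add]
        apply Real.exp_le_exp.2
        linarith
      have hp0 : (0 : ℝ) < p := by exact_mod_cast hp.pos
      have hq0 : (0 : ℝ) < q := by exact_mod_cast hq.pos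
      have ht0 : (0 : ℝ) < t := by exact_mod_cast ht.pos
      calc K * (x / ((p * (q * t) : ℕ) : ℝ)) * Real.exp (-(ll t + ll t + 0 + 2 * 0 +
          (2 - (1 / 2) ^ 1 - (1 / 2) ^ 2) * (ll y - ll t)))
          ≤ K * (x / ((p * (q * t) : ℕ) : ℝ)) * (Real.exp (-(5 / 4) * ll y) *
            (Real.exp (-(1 / 4) * ll p) * (Real.exp (-(1 / 4) * ll q) *
              Real.exp (-(1 / 4) * ll t)))) :=
            mul_le_mul_of_nonneg_left e4 (by positivity)
        _ = _ := by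
            unfold CA_w
            push_cast
            field_simp)
  refine h1.trans ((CA_sum3 (1 / 4) C _ y (hsum (y + 1)) (by positivity)).trans (le_of_eq ?_))
  ring

end Pool.Agent.H12.SQ
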