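import Pool.Agent.H12.SQ.CA
import Pool.Agent.H12.SQ.CB
/-!
Copy of helper37's module, for the predicate `GoodT` instead of `Good`.
PPD CI: the case where both n and n^2+n+1 have a small prime factor.
-/

set_option autoImplicit false

namespace Pool.Agent.H12.SQ

open Pool.Agent.H37.PPC Pool.Agent.H37.PPD

open Finset Pool.Agent.H37.PPC

def PN (y n : ℕ) : Prop := ∃ p q : ℕ, p.Prime ∧ q.Prime ∧ p ≤ y ∧ q ≤ y ∧ p ∣ n ∧ q ∣ n ^ 2 + n + 1 ∧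
  (∀ l ∈ pr 2 (y + 1), l ≠ p → ¬ l ∣ n) ∧ (∀ l ∈ pr 2 (y + 1), l ≠ q → ¬ l ∣ n ^ 2 + n + 1)

def PT0 (y n : ℕ) : Prop := ∃ p q t : ℕ, p.Prime ∧ q.Prime ∧ t.Prime ∧ p < t ∧ q < t ∧ t ≤ y ∧
  p ∣ n ∧ t ∣ n ∧ q ∣ n ^ 2 + n + 1 ∧ (∀ l ∈ pr 2 t, l ≠ p → ¬ l ∣ n) ∧
  (∀ l ∈ pr 2 t, l ≠ q → ¬ l ∣ n ^ 2 + n + 1)

def PT1 (y n : ℕ) : Prop := ∃ p q t : ℕ, p.Prime ∧ q.Prime ∧ t.Prime ∧ p < t ∧ q < t ∧ t ≤ y ∧
  p ∣ n ∧ q ∣ n ^ 2 + n + 1 ∧ t ∣ n ^ 2 + n + 1 ∧ (∀ l ∈ pr 2 t, l ≠ p → ¬ l ∣ n) ∧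
  (∀ l ∈ pr 2 t, l ≠ q → ¬ l ∣ n ^ 2 + n + 1)

def PB0 (y n : ℕ) : Prop := ∃ p q t : ℕ, p.Prime ∧ q.Prime ∧ t.Prime ∧ p < t ∧ t < q ∧ q ≤ y ∧
  p ∣ n ∧ t ∣ n ∧ q ∣ n ^ 2 + n + 1 ∧ (∀ l ∈ pr 2 t, l ≠ p → ¬ l ∣ n) ∧
  (∀ l ∈ pr 2 q, ¬ l ∣ n ^ 2 + n + 1)

def PB1 (y n : ℕ) : Prop := ∃ p q t : ℕ, p.Prime ∧ q.Prime ∧ t.Prime ∧ q < t ∧ t < p ∧ p ≤ y ∧
  p ∣ n ∧ q ∣ n ^ 2 + n + 1 ∧ t ∣ n ^ 2 + n + 1 ∧ (∀ l ∈ pr 2 p, ¬ l ∣ n) ∧
  (∀ l ∈ pr 2 t, l ≠ q → ¬ l ∣ n ^ 2 + n + 1)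

theorem CI_cases (y n : ℕ) (hp : ∃ p ∈ pr 2 (y + 1), p ∣ n)
    (hq : ∃ q ∈ pr 2 (y + 1), q ∣ n ^ 2 + n + 1) :
    PN y n ∨ PT0 y n ∨ PT1 y n ∨ PB0 y n ∨ PB1 y n := by
  classical
  -- least prime of n
  have hp' : ∃ p : ℕ, p.Prime ∧ p ∣ n := by
    obtain ⟨p, h1, h2⟩ := hp
    exact ⟨p, (mem_pr.1 h1).2, h2⟩
  have hq' : ∃ q : ℕ, q.Prime ∧ q ∣ n ^ 2 + n + 1 := by
    obtain ⟨q, h1, h2⟩ := hq
    exact ⟨q, (mem_pr.1 h1).2, h2⟩
  set p := Nat.find hp' with hpdef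
  set q := Nat.find hq' with hqdef
  obtain ⟨pp, pn⟩ := Nat.find_spec hp'
  obtain ⟨qp, qn⟩ := Nat.find_spec hq'
  rw [← hpdef] at pp pn
  rw [← hqdef] at qp qn
  have pmin : ∀ l : ℕ, l.Prime → l ∣ n → p ≤ l := fun l h1 h2 => Nat.find_min' hp' ⟨h1, h2⟩
  have qmin : ∀ l : ℕ, l.Prime → l ∣ n ^ 2 + n + 1 → q ≤ l := fun l h1 h2 =>
    Nat.find_min' hq' ⟨h1, h2⟩
  have py : p ≤ y := by
    obtain ⟨l, h1, h2⟩ := hp
    have := mem_pr.1 h1
    have := pmin l this.2 h2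
    omega
  have qy : q ≤ y := by
    obtain ⟨l, h1, h2⟩ := hq
    have := mem_pr.1 h1
    have := qmin l this.2 h2
    omega
  have hcop : ∀ l : ℕ, l.Prime → l ∣ n → ¬ l ∣ n ^ 2 + n + 1 := by
    intro l hl h1 h2
    have h3 : l ∣ n ^ 2 + n := by
      have : n ^ 2 + n = n * (n + 1) := by ring
      rw [this]
      exact h1.mul_right _
    have h4 := (Nat.dvd_add_right h3).1 h2
    exact hl.one_lt.ne' (Nat.dvd_one.1 h4)
  by_cases ht : ∃ t : ℕ, t.Prime ∧ t ≤ y ∧ t ≠ p ∧ t ≠ q ∧ (t ∣ n ∨ t ∣ n ^ 2 + n + 1)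
  · set t := Nat.find ht with htdef
    obtain ⟨tp, ty, tnp, tnq, tn⟩ := Nat.find_spec ht
    rw [← htdef] at tp ty tnp tnq tn
    have tmin : ∀ l : ℕ, l.Prime → l ≤ y → l ≠ p → l ≠ q → (l ∣ n ∨ l ∣ n ^ 2 + n + 1) → t ≤ l :=
      fun l h1 h2 h3 h4 h5 => Nat.find_min' ht ⟨h1, h2, h3, h4, h5⟩
    have hnt : ∀ l ∈ pr 2 t, l ≠ p → ¬ l ∣ n := by
      intro l hl hlp hln
      have h1 := mem_pr.1 hl
      have hlq : l ≠ q := by
        rintro rfl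
        exact hcop _ h1.2 hln qn
      have := tmin l h1.2 (by omega) hlp hlq (Or.inl hln)
      omega
    have hvt : ∀ l ∈ pr 2 t, l ≠ q → ¬ l ∣ n ^ 2 + n + 1 := by
      intro l hl hlq hln
      have h1 := mem_pr.1 hl
      have hlp : l ≠ p := by
        rintro rfl
        exact hcop _ h1.2 pn hln
      have := tmin l h1.2 (by omega) hlp hlq (Or.inr hln)
      omega
    rcases tn with tn | tn
    · -- t ∣ n
      have h1 := pmin t tp tn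
      have h2 : p < t := by omega
      rcases lt_or_gt_of_ne tnq with h3 | h3
      · -- t < q
        right; right; right; left
        refine ⟨p, q, t, pp, qp, tp, h2, h3, qy, pn, tn, qn, hnt, ?_⟩
        intro l hl hlv
        have h4 := mem_pr.1 hl
        have := qmin l h4.2 hlv
        omega
      · right; left
        exact ⟨p, q, t, pp, qp, tp, h2, h3, ty, pn, tn, qn, hnt, hvt⟩
    · have h1 := qmin t tp tn
      have h2 : q < t := by omega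
      rcases lt_or_gt_of_ne tnp with h3 | h3
      · -- t < p
        right; right; right; right
        refine ⟨p, q, t, pp, qp, tp, h2, h3, py, pn, qn, tn, ?_, hvt⟩
        intro l hl hln
        have h4 := mem_pr.1 hl
        have := pmin l h4.2 hln
        omega
      · right; right; left
        exact ⟨p, q, t, pp, qp, tp, h3, h2, ty, pn, qn, tn, hnt, hvt⟩
  · left
    push Not at ht
    refine ⟨p, q, pp, qp, py, qy, pn, qn, ?_, ?_⟩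
    · intro l hl hlp hln
      have h1 := mem_pr.1 hl
      have hlq : l ≠ q := by
        rintro rfl
        exact hcop _ h1.2 hln qn
      exact (ht l h1.2 (by omega) hlp hlq).1 hln
    · intro l hl hlq hln
      have h1 := mem_pr.1 hl
      have hlp : l ≠ p := by
        rintro rfl
        exact hcop _ h1.2 pn hln
      exact (ht l h1.2 (by omega) hlp hlq).2 hln

theorem case_i : ∃ s : ℕ, 0 < s ∧ ∃ K : ℝ, 0 < K ∧ ∀ x y : ℕ, 2 ≤ y → y ^ s ≤ x →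
    ∀ S : Finset ℕ, (∀ n ∈ S, 1 ≤ n ∧ n ≤ x ∧ GoodT n ∧ (∃ p ∈ pr 2 (y + 1), p ∣ n) ∧
      (∃ q ∈ pr 2 (y + 1), q ∣ n ^ 2 + n + 1)) →
    (S.card : ℝ) ≤ K * x * Real.exp (-(5 / 4) * ll y) := by
  classical
  obtain ⟨K1, hK1, s1, hs1, h1⟩ := case_none
  obtain ⟨K2, hK2, s2, hs2, h2⟩ := case_T0
  obtain ⟨K3, hK3, s3, hs3, h3⟩ := case_T1
  obtain ⟨K4, hK4, s4, hs4, h4⟩ := case_B0
  obtain ⟨K5, hK5, s5, hs5, h5⟩ := case_B1
  refine ⟨s1 + s2 + s3 + s4 + s5 + 3, by omega, K1 + K2 + K3 + K4 + K5, by positivity, ?_⟩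
  intro x y hy hyx S hS
  have hp : ∀ s : ℕ, s ≤ s1 + s2 + s3 + s4 + s5 → y ^ (s + 3) ≤ x := fun s hs =>
    (Nat.pow_le_pow_right (by omega) (by omega)).trans hyx
  have hcov : S ⊆ S.filter (fun n => PN y n) ∪ (S.filter (fun n => PT0 y n) ∪
      (S.filter (fun n => PT1 y n) ∪ (S.filter (fun n => PB0 y n) ∪
        S.filter (fun n => PB1 y n)))) := by
    intro n hn
    obtain ⟨-, -, -, a, b⟩ := hS n hn
    simp only [mem_union, mem_filter]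
    rcases CI_cases y n a b with h | h | h | h | h
    · exact Or.inl ⟨hn, h⟩
    · exact Or.inr (Or.inl ⟨hn, h⟩)
    · exact Or.inr (Or.inr (Or.inl ⟨hn, h⟩))
    · exact Or.inr (Or.inr (Or.inr (Or.inl ⟨hn, h⟩)))
    · exact Or.inr (Or.inr (Or.inr (Or.inr ⟨hn, h⟩)))
  have hc : S.card ≤ (S.filter (fun n => PN y n)).card + ((S.filter (fun n => PT0 y n)).card +
      ((S.filter (fun n => PT1 y n)).card + ((S.filter (fun n => PB0 y n)).card +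
        (S.filter (fun n => PB1 y n)).card))) := by
    refine (card_le_card hcov).trans ((card_union_le _ _).trans ?_)
    apply Nat.add_le_add_left
    refine (card_union_le _ _).trans ?_
    apply Nat.add_le_add_left
    refine (card_union_le _ _).trans ?_
    apply Nat.add_le_add_left
    exact card_union_le _ _
  have hc' : (S.card : ℝ) ≤ (S.filter (fun n => PN y n)).card + ((S.filter (fun n => PT0 y n)).card
      + ((S.filter (fun n => PT1 y n)).card + ((S.filter (fun n => PB0 y n)).card +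
        (S.filter (fun n => PB1 y n)).card))) := by exact_mod_cast hc
  have e1 := h1 x y hy (hp s1 (by omega)) (S.filter (fun n => PN y n)) (fun n hn => by
    rw [mem_filter] at hn
    obtain ⟨a1, a2, a3, -⟩ := hS n hn.1
    exact ⟨a1, a2, a3, hn.2⟩)
  have e2 := h2 x y hy (hp s2 (by omega)) (S.filter (fun n => PT0 y n)) (fun n hn => by
    rw [mem_filter] at hn
    obtain ⟨a1, a2, a3, -⟩ := hS n hn.1
    exact ⟨a1, a2, a3, hn.2⟩)
  have e3 := h3 x y hy (hp s3 (by omega)) (S.filter (fun n => PT1 y n)) (fun n hn => by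
    rw [mem_filter] at hn
    obtain ⟨a1, a2, a3, -⟩ := hS n hn.1
    exact ⟨a1, a2, a3, hn.2⟩)
  have e4 := h4 x y hy (hp s4 (by omega)) (S.filter (fun n => PB0 y n)) (fun n hn => by
    rw [mem_filter] at hn
    obtain ⟨a1, a2, a3, -⟩ := hS n hn.1
    exact ⟨a1, a2, a3, hn.2⟩)
  have e5 := h5 x y hy (hp s5 (by omega)) (S.filter (fun n => PB1 y n)) (fun n hn => by
    rw [mem_filter] at hn
    obtain ⟨a1, a2, a3, -⟩ := hS n hn.1
    exact ⟨a1, a2, a3, hn.2⟩)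
  refine hc'.trans ?_
  have : (K1 + K2 + K3 + K4 + K5) * x * Real.exp (-(5 / 4) * ll y)
      = K1 * x * Real.exp (-(5 / 4) * ll y) + (K2 * x * Real.exp (-(5 / 4) * ll y)
        + (K3 * x * Real.exp (-(5 / 4) * ll y) + (K4 * x * Real.exp (-(5 / 4) * ll y)
          + K5 * x * Real.exp (-(5 / 4) * ll y)))) := by ring
  rw [this]
  linarith

end Pool.Agent.H12.SQ
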