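import Pool.Agent.H12.SQ.Base
import Pool.Agent.H37.PPD.AP
import Pool.Agent.H37.PPD.RS
/-!
Copy of helper37's module, for the predicate `GoodT` instead of `Good`.
PPD G2: the count with prime divisors P of n, Q of v = n²+n+1, n free of other primes < a, v free of other primes < b.
-/

set_option autoImplicit false

namespace Pool.Agent.H12.SQ

open Pool.Agent.H37.PPC Pool.Agent.H37.PPD

open Finset Pool.Agent.H37.PPC

theorem rs_nonneg (A : Finset ℕ) : 0 ≤ rs A := by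
  unfold rs
  exact sum_nonneg (fun l _ => by positivity)

theorem G2_sdiff (A R : Finset ℕ) (hR : ∀ l ∈ R, l.Prime) (hc : R.card ≤ 3) :
    rs A - 3 / 2 ≤ rs (A \ R) := by
  have h1 : rs A ≤ rs (A \ R) + rs R := by
    unfold rs
    have hsub : A ⊆ (A \ R) ∪ R := by
      intro l hl
      by_cases h : l ∈ R
      · exact mem_union_right _ h
      · exact mem_union_left _ (mem_sdiff.2 ⟨hl, h⟩)
    calc ∑ l ∈ A, (1 : ℝ) / l ≤ ∑ l ∈ (A \ R) ∪ R, (1 : ℝ) / l :=
          sum_le_sum_of_subset_of_nonneg hsub (fun l _ _ => by positivity)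
      _ = _ := sum_union sdiff_disjoint
  have h2 : rs R ≤ 3 / 2 := by
    unfold rs
    calc ∑ l ∈ R, (1 : ℝ) / l ≤ ∑ _l ∈ R, (1 / 2 : ℝ) := by
          apply sum_le_sum
          intro l hl
          apply one_div_le_one_div_of_le (by norm_num)
          exact_mod_cast (hR l hl).two_le
      _ = R.card * (1 / 2) := by rw [sum_const, nsmul_eq_mul]
      _ ≤ 3 * (1 / 2) := by
          apply mul_le_mul_of_nonneg_right _ (by norm_num)
          exact_mod_cast hc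
      _ = 3 / 2 := by norm_num
  linarith

theorem G2_union3 (A B C : Finset ℕ) (h1 : Disjoint A B) (h2 : Disjoint A C) (h3 : Disjoint B C) :
    rs (A ∪ B ∪ C) = rs A + rs B + rs C := by
  unfold rs
  rw [sum_union, sum_union h1]
  rw [disjoint_union_left]
  exact ⟨h2, h3⟩

theorem G2_llz (c : ℕ) (hc : 2 ≤ c) : ll ((12 * c ^ 3) ^ 8) ≤ ll c + Real.log 53 := by
  have hlp : 0.69 < Real.log c := by
    have h1 := Real.log_two_gt_d9
    have h2 : Real.log 2 ≤ Real.log c := Real.log_le_log (by norm_num) (by exact_mod_cast hc)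
    linarith
  have hp0 : (0 : ℝ) < c := by positivity
  have h12 : Real.log 12 ≤ 2.485 := by
    have h : Real.log 12 = 2 * Real.log 2 + Real.log 3 := by
      rw [show (12 : ℝ) = 2 ^ 2 * 3 by norm_num, Real.log_mul (by norm_num) (by norm_num),
        Real.log_pow]
      norm_num
    have h2 := Real.log_two_lt_d9
    have h3 := Real.log_three_lt_d9
    rw [h]; linarith
  have h1 : Real.log (((12 * c ^ 3) ^ 8 : ℕ) : ℝ) = 8 * (Real.log 12 + 3 * Real.log c) := by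
    push_cast
    rw [Real.log_pow, Real.log_mul (by norm_num) (by positivity), Real.log_pow]
    norm_num
  have h2 : Real.log (((12 * c ^ 3) ^ 8 : ℕ) : ℝ) ≤ 53 * Real.log c := by rw [h1]; linarith
  have h3 : 0 < Real.log (((12 * c ^ 3) ^ 8 : ℕ) : ℝ) := by
    rw [h1]
    have : 0 < Real.log 12 := Real.log_pos (by norm_num)
    linarith
  unfold ll
  calc Real.log (Real.log (((12 * c ^ 3) ^ 8 : ℕ) : ℝ)) ≤ Real.log (53 * Real.log c) :=
        Real.log_le_log h3 h2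
    _ = Real.log (Real.log c) + Real.log 53 := by
      rw [Real.log_mul (by norm_num) (by linarith)]; ring

theorem G2_prod_le (P : Finset ℕ) (y : ℕ) (hP : ∀ p ∈ P, p ≤ y) : ∏ p ∈ P, p ≤ y ^ P.card :=
  prod_le_pow_card _ _ _ hP

theorem G2_theta {a : ℝ} (h0 : 0 ≤ a) (h1 : a ≤ 1) {u v : ℝ} (huv : u ≤ v) (hv : 0 ≤ v) :
    a * u ≤ v := by
  rcases le_or_gt 0 u with h | h
  · nlinarith
  · nlinarith

theorem count_gen2 : ∃ K : ℝ, 0 < K ∧ ∃ s : ℕ, 0 < s ∧ ∀ x y : ℕ, 2 ≤ y → y ^ (s + 3) ≤ x →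
    ∀ P Q : Finset ℕ, P.Nonempty → Q.Nonempty → (∀ p ∈ P, p.Prime) → (∀ q ∈ Q, q.Prime ∧ 2 < q) →
    P.card + Q.card ≤ 3 → ∀ a b c : ℕ, 2 ≤ a → 2 ≤ b → a ≤ c → b ≤ c → c ≤ y + 1 →
    (∀ p ∈ P, p ≤ c ∧ p ≤ y) → (∀ q ∈ Q, q ≤ c ∧ q ≤ y) →
    ∀ S : Finset ℕ, (∀ n ∈ S, 1 ≤ n ∧ n ≤ x ∧ GoodT n ∧ (∀ p ∈ P, p ∣ n) ∧
      (∀ q ∈ Q, q ∣ n ^ 2 + n + 1) ∧ (∀ l ∈ pr 2 a, l ∉ P → ¬ l ∣ n) ∧
      (∀ l ∈ pr 2 b, l ∉ Q → ¬ l ∣ n ^ 2 + n + 1)) →
    (S.card : ℝ) ≤ K * (x / (((∏ p ∈ P, p) * (∏ q ∈ Q, q) : ℕ) : ℝ)) *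
      Real.exp (-(ll a + ll b + rs (A0 Q a c) + 2 * rs (A1 P b c)
        + (2 - (1 / 2) ^ P.card - (1 / 2) ^ Q.card) * (ll y - ll c))) := by
  obtain ⟨C, hC, s, hs, hcount⟩ := count_PQ
  obtain ⟨C1, hC1, hM⟩ := mertens_two
  obtain ⟨C2, hC2, h3⟩ := sum_mod3
  obtain ⟨C3, hC3, hR⟩ := Rsum
  obtain ⟨C4, hC4, hQ⟩ := Qsum
  set E : ℝ := C1 + C2 + C3 + 2 * C4 + 2 * Real.log 53 + 9 / 2 with hE
  refine ⟨C * 8 * Real.exp E, by positivity, s, hs, ?_⟩
  intro x y hy hyx P Q hPne hQne hP hQp hPQ a b c ha hb hac hbc hcy hPc hQc S hS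
  rcases S.eq_empty_or_nonempty with hSe | hSne
  · subst hSe
    rw [card_empty, Nat.cast_zero]
    positivity
  have hdisj : Disjoint P Q := by
    obtain ⟨n, hn⟩ := hSne
    obtain ⟨-, -, -, b1, b2, -⟩ := hS n hn
    rw [disjoint_left]
    intro l hl hl'
    have h1 := b1 l hl
    have h2 := b2 l hl'
    have h4 : l ∣ n ^ 2 + n := by
      have : n ^ 2 + n = n * (n + 1) := by ring
      rw [this]
      exact h1.mul_right _
    have h5 := (Nat.dvd_add_right h4).1 h2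
    exact (hP l hl).one_lt.ne' (Nat.dvd_one.1 h5)
  set R := P ∪ Q with hRdef
  have hRp : ∀ l ∈ R, l.Prime := by
    intro l hl
    rcases mem_union.1 hl with h | h
    · exact hP l h
    · exact (hQp l h).1
  have hRc : R.card ≤ 3 := (card_union_le _ _).trans hPQ
  set zc : ℕ := (12 * c ^ 3) ^ 8 with hzc
  have hc2 : 2 ≤ c := ha.trans hac
  have hczc : c < zc := by
    have h1 : c ≤ c ^ 3 := Nat.le_self_pow (by norm_num) c
    have h2 : 12 * c ^ 3 ≤ (12 * c ^ 3) ^ 8 := Nat.le_self_pow (by norm_num) _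
    omega
  set Z0 := (pr 2 a ∪ A0 Q a c ∪ A0 Q zc (y + 1)) \ R with hZ0
  set Zq := ((pr 2 b).filter (fun l => l % 3 = 1) ∪ A1 P b c ∪ A1 P zc (y + 1)) \ R with hZq
  have sA0 : ∀ u v, A0 Q u v ⊆ pr u v := fun u v => filter_subset _ _
  have sA1 : ∀ u v, A1 P u v ⊆ pr u v := fun u v => filter_subset _ _
  -- disjointness
  have dd : ∀ (A B : Finset ℕ) (u v u' v' : ℕ), A ⊆ pr u v → B ⊆ pr u' v' → v ≤ u' → Disjoint A B := by
    intro A B u v u' v' hA hB huv
    rw [disjoint_left]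
    intro l hl hl'
    have h1 := mem_pr.1 (hA hl)
    have h2 := mem_pr.1 (hB hl')
    omega
  have e0 : rs (pr 2 a ∪ A0 Q a c ∪ A0 Q zc (y + 1))
      = rs (pr 2 a) + rs (A0 Q a c) + rs (A0 Q zc (y + 1)) :=
    G2_union3 _ _ _ (dd _ _ 2 a a c (Subset.refl _) (sA0 _ _) le_rfl)
      (dd _ _ 2 a zc (y + 1) (Subset.refl _) (sA0 _ _) (by omega))
      (dd _ _ a c zc (y + 1) (sA0 _ _) (sA0 _ _) (by omega))
  have e1 : rs ((pr 2 b).filter (fun l => l % 3 = 1) ∪ A1 P b c ∪ A1 P zc (y + 1))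
      = rs ((pr 2 b).filter (fun l => l % 3 = 1)) + rs (A1 P b c) + rs (A1 P zc (y + 1)) :=
    G2_union3 _ _ _ (dd _ _ 2 b b c (filter_subset _ _) (sA1 _ _) le_rfl)
      (dd _ _ 2 b zc (y + 1) (filter_subset _ _) (sA1 _ _) (by omega))
      (dd _ _ b c zc (y + 1) (sA1 _ _) (sA1 _ _) (by omega))
  -- lower bounds
  have hll2 : ll 2 ≤ 0 := by
    unfold ll
    have h1 := Real.log_two_gt_d9
    have h2 := Real.log_two_lt_d9
    rw [Nat.cast_ofNat]
    apply Real.log_nonpos <;> linarith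
  have b1 : ll a - C1 ≤ rs (pr 2 a) := by
    have := (abs_le.1 (hM 2 a le_rfl ha)).1
    have h : -C1 ≤ rs (pr 2 a) - (ll a - ll 2) := this
    linarith
  have b2 : ll b - C2 ≤ 2 * rs ((pr 2 b).filter (fun l => l % 3 = 1)) := by
    have := h3 2 b le_rfl hb
    linarith
  have hllz := G2_llz c hc2
  have hlly : ll y ≤ ll (y + 1) := loglog_mono hy (by omega)
  have hl53 := Real.log_pos (show (1 : ℝ) < 53 by norm_num)
  have hth : ∀ k : ℕ, (0 : ℝ) ≤ 1 - (1 / 2) ^ k ∧ (1 : ℝ) - (1 / 2) ^ k ≤ 1 := by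
    intro k
    have h1 : ((1 : ℝ) / 2) ^ k ≤ 1 := pow_le_one₀ (by norm_num) (by norm_num)
    have h2 : (0 : ℝ) < ((1 : ℝ) / 2) ^ k := by positivity
    constructor <;> linarith
  have hprodP : ∏ p ∈ P, p ≤ c ^ 3 := by
    refine (G2_prod_le P c (fun p hp => (hPc p hp).1)).trans ?_
    exact Nat.pow_le_pow_right (by omega) (by omega)
  have hprodQ : ∏ q ∈ Q, q ≤ c ^ 3 := by
    refine (G2_prod_le Q c (fun p hp => (hQc p hp).1)).trans ?_
    exact Nat.pow_le_pow_right (by omega) (by omega)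
  have b3 : (1 - (1 / 2) ^ Q.card) * (ll y - ll c) - Real.log 53 - C3 ≤ rs (A0 Q zc (y + 1)) := by
    obtain ⟨t0, t1⟩ := hth Q.card
    by_cases hz : zc ≤ y + 1
    · have h1 := hR Q hQne hQp zc (y + 1)
        (Nat.pow_le_pow_left (Nat.mul_le_mul_left _ hprodQ) _) hz
      have h2 : (1 - (1 / 2 : ℝ) ^ Q.card) * ((ll y - ll c) - (ll (y + 1) - ll zc))
          ≤ Real.log 53 := G2_theta t0 t1 (by linarith) hl53.le
      rw [mul_sub] at h2
      linarith
    · have h1 := rs_nonneg (A0 Q zc (y + 1))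
      have h2 : ll (y + 1) ≤ ll zc := loglog_mono (by omega) (by omega)
      have h4 : (1 - (1 / 2 : ℝ) ^ Q.card) * (ll y - ll c) ≤ Real.log 53 :=
        G2_theta t0 t1 (by linarith) hl53.le
      linarith
  have b4 : (1 - (1 / 2) ^ P.card) * (ll y - ll c) - Real.log 53 - 2 * C4
      ≤ 2 * rs (A1 P zc (y + 1)) := by
    obtain ⟨t0, t1⟩ := hth P.card
    by_cases hz : zc ≤ y + 1
    · have h1 := hQ P hPne hP zc (y + 1)
        (Nat.pow_le_pow_left (Nat.mul_le_mul_left _ hprodP) _) hz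
      have h1' : (1 / 2) * (1 - (1 / 2) ^ P.card) * (ll (y + 1) - ll zc) - C4
          ≤ rs (A1 P zc (y + 1)) := h1
      have h2 : (1 - (1 / 2 : ℝ) ^ P.card) * ((ll y - ll c) - (ll (y + 1) - ll zc))
          ≤ Real.log 53 := G2_theta t0 t1 (by linarith) hl53.le
      rw [mul_sub] at h2
      linarith
    · have h1 := rs_nonneg (A1 P zc (y + 1))
      have h2 : ll (y + 1) ≤ ll zc := loglog_mono (by omega) (by omega)
      have h4 : (1 - (1 / 2 : ℝ) ^ P.card) * (ll y - ll c) ≤ Real.log 53 :=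
        G2_theta t0 t1 (by linarith) hl53.le
      linarith
  have b5 := G2_sdiff (pr 2 a ∪ A0 Q a c ∪ A0 Q zc (y + 1)) R hRp hRc
  have b6 := G2_sdiff ((pr 2 b).filter (fun l => l % 3 = 1) ∪ A1 P b c ∪ A1 P zc (y + 1)) R hRp hRc
  rw [e0] at b5
  rw [e1] at b6
  -- apply the count
  have hmain := hcount x y hy P Q hP (fun q hq => (hQp q hq).1) hdisj ?_ Z0 Zq ?_ ?_ ?_ ?_ ?_ S ?_
  · refine hmain.trans ?_
    have hexp : Real.exp (-(rs Z0 + 2 * rs Zq)) ≤ Real.exp E *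
        Real.exp (-(ll a + ll b + rs (A0 Q a c) + 2 * rs (A1 P b c)
        + (2 - (1 / 2) ^ P.card - (1 / 2) ^ Q.card) * (ll y - ll c))) := by
      rw [← Real.exp_add]
      apply Real.exp_le_exp.2
      have : (2 - (1 / 2) ^ P.card - (1 / 2) ^ Q.card) * (ll y - ll c)
          = (1 - (1 / 2) ^ P.card) * (ll y - ll c) + (1 - (1 / 2) ^ Q.card) * (ll y - ll c) := by
        ring
      rw [this]
      linarith
    have h2Q : (2 : ℝ) ^ Q.card ≤ 8 := by
      calc (2 : ℝ) ^ Q.card ≤ 2 ^ 3 := pow_le_pow_right₀ (by norm_num) (by omega)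
        _ = 8 := by norm_num
    have hx0 : 0 ≤ (x : ℝ) / (((∏ p ∈ P, p) * (∏ q ∈ Q, q) : ℕ) : ℝ) := by positivity
    calc C * 2 ^ Q.card * (x / (((∏ p ∈ P, p) * (∏ q ∈ Q, q) : ℕ) : ℝ)) *
          Real.exp (-(rs Z0 + 2 * rs Zq))
        ≤ C * 8 * (x / (((∏ p ∈ P, p) * (∏ q ∈ Q, q) : ℕ) : ℝ)) *
          (Real.exp E * Real.exp (-(ll a + ll b + rs (A0 Q a c) + 2 * rs (A1 P b c)
        + (2 - (1 / 2) ^ P.card - (1 / 2) ^ Q.card) * (ll y - ll c)))) := by
          apply mul_le_mul _ hexp (by positivity) (by positivity)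
          apply mul_le_mul_of_nonneg_right _ hx0
          exact mul_le_mul_of_nonneg_left h2Q hC.le
      _ = _ := by ring
  · calc (∏ p ∈ P, p) * (∏ q ∈ Q, q) * y ^ s ≤ y ^ P.card * y ^ Q.card * y ^ s := by
          apply Nat.mul_le_mul_right
          exact Nat.mul_le_mul (G2_prod_le P y (fun p hp => (hPc p hp).2))
            (G2_prod_le Q y (fun p hp => (hQc p hp).2))
      _ = y ^ (P.card + Q.card + s) := by rw [pow_add, pow_add]
      _ ≤ y ^ (s + 3) := Nat.pow_le_pow_right (by omega) (by omega)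
      _ ≤ x := hyx
  · intro l hl
    have hl' := (mem_sdiff.1 hl).1
    rw [mem_union, mem_union] at hl'
    rw [mem_pr]
    rcases hl' with (h | h) | h
    · have := mem_pr.1 h; exact ⟨⟨by omega, by omega⟩, this.2⟩
    · have := mem_pr.1 (sA0 _ _ h); exact ⟨⟨by omega, by omega⟩, this.2⟩
    · have := mem_pr.1 (sA0 _ _ h); exact ⟨⟨by omega, by omega⟩, this.2⟩
  · intro l hl
    have hl' := (mem_sdiff.1 hl).1
    rw [mem_union, mem_union] at hl'
    rw [mem_pr]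
    rcases hl' with (h | h) | h
    · have := mem_pr.1 (mem_filter.1 h).1; exact ⟨⟨by omega, by omega⟩, this.2⟩
    · have := mem_pr.1 (sA1 _ _ h); exact ⟨⟨by omega, by omega⟩, this.2⟩
    · have := mem_pr.1 (sA1 _ _ h); exact ⟨⟨by omega, by omega⟩, this.2⟩
  · exact sdiff_disjoint
  · exact sdiff_disjoint
  · intro q hq
    have hl' := (mem_sdiff.1 hq).1
    rw [mem_union, mem_union] at hl'
    rcases hl' with (h | h) | h
    · exact (mem_filter.1 h).2
    · exact (mem_filter.1 h).2.1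
    · exact (mem_filter.1 h).2.1
  · intro n hn
    obtain ⟨n1, n2, n3, n4, n5, n6, n7⟩ := hS n hn
    refine ⟨n1, n2, n4, n5, ?_, ?_⟩
    · intro l hl hln
      have hl' := (mem_sdiff.1 hl).1
      have hlR := (mem_sdiff.1 hl).2
      have hlP : l ∉ P := fun h => hlR (mem_union_left _ h)
      rw [mem_union, mem_union] at hl'
      have hA : ∀ u v, l ∈ A0 Q u v → False := by
        intro u v h
        obtain ⟨h1, q, hq, hj⟩ := mem_filter.1 h
        exact n3.test (mem_pr.1 h1).2 hln (hQp q hq).1 hj (n5 q hq)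
      rcases hl' with (h | h) | h
      · exact n6 l h hlP hln
      · exact hA _ _ h
      · exact hA _ _ h
    · intro l hl hln
      have hl' := (mem_sdiff.1 hl).1
      have hlR := (mem_sdiff.1 hl).2
      have hlQ : l ∉ Q := fun h => hlR (mem_union_right _ h)
      rw [mem_union, mem_union] at hl'
      have hA : ∀ u v, l ∈ A1 P u v → False := by
        intro u v h
        obtain ⟨h1, -, p, hp, hj⟩ := mem_filter.1 h
        exact n3.test (hP p hp) (n4 p hp) (mem_pr.1 h1).2 hj hln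
      rcases hl' with (h | h) | h
      · exact n7 l (mem_filter.1 h).1 hlQ hln
      · exact hA _ _ h
      · exact hA _ _ h

end Pool.Agent.H12.SQ
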