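import Pool.Agent.H12.SQ.Base
import Pool.Agent.H37.PPC.Defs
import Pool.Agent.H12.ST.Fin

/-!
Orders of planes with a soluble point-transitive group, squarefree case: `GoodT`, and `IsOrder`
if the number of points is a prime.
-/

set_option autoImplicit false

namespace Pool.Agent.H12.SQ

open Finset Pool.Agent.H37.PPC Pool.Agent.H12.ST Configuration

theorem isOrder_of_isCyc {P L : Type} [Membership P L] [Finite P] [Finite L]
    [ProjectivePlane P L] (h : IsCyc P L (ProjectivePlane.order P L)) :
    IsOrder (ProjectivePlane.order P L) := by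
  classical
  set n := ProjectivePlane.order P L with hn
  obtain ⟨f, g, D, hD⟩ := h
  have : NeZero (n ^ 2 + n + 1) := ⟨by omega⟩
  refine ⟨univ.filter (fun d => d ∈ D), ?_, ?_⟩
  · have h1 := ProjectivePlane.pointCount_eq (P := P) (g.symm 0)
    unfold pointCount at h1
    rw [← hn] at h1
    rw [← h1, ← Fintype.card_subtype, ← Nat.card_eq_fintype_card]
    refine (Nat.card_congr (f.subtypeEquiv fun p => ?_)).symm
    rw [hD p (g.symm 0), Equiv.apply_symm_apply, sub_zero]
  · intro r hr
    have hne : f.symm r ≠ f.symm 0 := fun h => hr (f.symm.injective h)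
    obtain ⟨l, ⟨hl1, hl2⟩, hu⟩ := HasLines.existsUnique_line P L (f.symm r) (f.symm 0) hne
    rw [hD, Equiv.apply_symm_apply] at hl1 hl2
    rw [card_eq_one]
    refine ⟨(r - g l, 0 - g l), ?_⟩
    ext ⟨a, b⟩
    simp only [mem_filter, mem_product, mem_univ, true_and, mem_singleton, Prod.mk.injEq]
    constructor
    · rintro ⟨⟨ha, hb⟩, hab⟩
      have h1 := hu (g.symm (0 - b)) ⟨by
        rw [hD, Equiv.apply_symm_apply, Equiv.apply_symm_apply]
        have : r - (0 - b) = a := by rw [← hab]; ring
        rw [this]; exact ha, by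
        rw [hD, Equiv.apply_symm_apply, Equiv.apply_symm_apply]
        have : (0 : ZMod (n ^ 2 + n + 1)) - (0 - b) = b := by ring
        rw [this]; exact hb⟩
      have h2 : 0 - b = g l := by rw [← h1, Equiv.apply_symm_apply]
      have h3 : b = 0 - g l := by rw [← h2]; ring
      refine ⟨?_, h3⟩
      rw [← hab, h3]; ring
    · rintro ⟨rfl, rfl⟩
      exact ⟨⟨hl1, hl2⟩, by ring⟩

theorem goodT_of_solTrans {P L : Type} [Membership P L] [Finite P] [Finite L]
    [ProjectivePlane P L] (h : SolTrans P L)
    (hsq : Squarefree (ProjectivePlane.order P L))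
    (hsq2 : Squarefree (ProjectivePlane.order P L ^ 2 + ProjectivePlane.order P L + 1)) :
    GoodT (ProjectivePlane.order P L) := by
  have hM := mannGood_of_solTrans h
  have h2 := ProjectivePlane.one_lt_order P L
  set n := ProjectivePlane.order P L with hn
  have hval : ∀ (m p : ℕ), Squarefree m → p.Prime → p ∣ m → Odd (padicValNat p m) := by
    intro m p hm hp hpm
    have : Fact p.Prime := ⟨hp⟩
    have hm0 : m ≠ 0 := hm.ne_zero
    have h3 : padicValNat p m = 1 := by
      refine le_antisymm ?_ (one_le_padicValNat_of_dvd hm0 hpm)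
      by_contra hcon
      push Not at hcon
      have h4 : p ^ 2 ∣ m := (padicValNat_dvd_iff_le hm0).2 hcon
      rw [sq] at h4
      exact hp.one_lt.ne' (Nat.isUnit_iff.1 (hm p h4))
    rw [h3]; exact odd_one
  refine ⟨h2, ?_, ?_⟩
  · intro p q hp hpn hq hj hqv
    have h3 := hM p q hp hq (hval n p hsq hp hpn) (hval _ q hsq2 hq hqv)
    have : Fact q.Prime := ⟨hq⟩
    refine ZMod.nonsquare_of_jacobiSym_eq_neg_one hj ?_
    obtain ⟨k, hk⟩ := h3
    refine ⟨((p : ℕ) : ZMod q) ^ (k + 1), ?_⟩
    have h4 := pow_orderOf_eq_one ((p : ℕ) : ZMod q)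
    rw [hk] at h4
    rw [← pow_add]
    have h5 : k + 1 + (k + 1) = (2 * k + 1) + 1 := by ring
    rw [h5, pow_succ, h4, one_mul]
    push_cast
    rfl
  · rintro ⟨m, hm⟩
    have h3 : IsUnit m := hsq m (by rw [hm])
    rw [Nat.isUnit_iff] at h3
    rw [h3] at hm
    omega

theorem isOrder_of_prime {P L : Type} [Membership P L] [Finite P] [Finite L]
    [ProjectivePlane P L] (h : SolTrans P L)
    (hp : (ProjectivePlane.order P L ^ 2 + ProjectivePlane.order P L + 1).Prime) :
    IsOrder (ProjectivePlane.order P L) := by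
  refine isOrder_of_isCyc (cyc_of_solTrans h ?_)
  rw [Nat.totient_prime hp]
  set v := ProjectivePlane.order P L ^ 2 + ProjectivePlane.order P L + 1 with hv
  rw [Nat.coprime_comm]
  refine Nat.Coprime.symm ((Nat.Prime.coprime_iff_not_dvd hp).2 ?_)
  intro hd
  have h1 : 0 < v - 1 := by have := hp.two_le; omega
  have := Nat.le_of_dvd h1 hd
  omega

end Pool.Agent.H12.SQ
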