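import Pool.Agent.H12.SQ.AAA
import Pool.Agent.H12.SQ.ST
import Pool.Agent.H12.SQ.Ord

/-!
All but `O(x/(log x)^(5/4))` of the `n ≤ x` with Mann's test property (and `IsOrder n` if
`n²+n+1` is a prime) are primes.  Copy of helper49's `power_saving`
(Pool/Agent/H49/PPR/AA.lean) for this wider set.
-/

set_option autoImplicit false

namespace Pool.Agent.H12.SQ

open Finset Pool.Agent.H37.PPC Pool.Agent.H37.PPD Pool.Agent.H37.PPE Pool.Agent.H49.PPR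

/-- the two facts used on `n` -/
def HypT (n : ℕ) : Prop := GoodT n ∧ ((n ^ 2 + n + 1).Prime → IsOrder n)

/-- the trivial bound for small `x` -/
private theorem AA_triv (x0 : ℕ) : ∃ C : ℝ, 0 < C ∧ ∀ x : ℕ, 2 ≤ x → x < x0 → ∀ S : Finset ℕ,
    (∀ n ∈ S, 1 ≤ n ∧ n ≤ x) → (S.card : ℝ) ≤ C * x / Real.log x ^ (5 / 4 : ℝ) := by
  refine ⟨(x0 : ℝ) ^ (5 / 4 : ℝ) + 1, by positivity, ?_⟩
  intro x hx hx0 S hS
  have hx1 : (1 : ℝ) < x := by exact_mod_cast (by omega : 1 < x)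
  have hlx : 0 < Real.log x := Real.log_pos hx1
  have hc : S.card ≤ x := by
    have h1 : S ⊆ Icc 1 x := fun n hn => mem_Icc.2 (hS n hn)
    have h2 := card_le_card h1
    rwa [Nat.card_Icc, Nat.add_sub_cancel] at h2
  have hc' : (S.card : ℝ) ≤ x := by exact_mod_cast hc
  have hl : Real.log x ≤ x0 := by
    have h1 := Real.log_le_sub_one_of_pos (show (0 : ℝ) < x by linarith)
    have h2 : (x : ℝ) ≤ x0 := by exact_mod_cast hx0.le
    linarith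
  have hp : Real.log x ^ (5 / 4 : ℝ) ≤ (x0 : ℝ) ^ (5 / 4 : ℝ) + 1 := by
    have := Real.rpow_le_rpow hlx.le hl (show (0 : ℝ) ≤ 5 / 4 by norm_num)
    linarith
  have hlp : 0 < Real.log x ^ (5 / 4 : ℝ) := Real.rpow_pos_of_pos hlx _
  rw [le_div_iff₀ hlp]
  calc (S.card : ℝ) * Real.log x ^ (5 / 4 : ℝ) ≤ x * ((x0 : ℝ) ^ (5 / 4 : ℝ) + 1) :=
        mul_le_mul hc' hp hlp.le (by linarith)
    _ = _ := by ring

open Classical in
theorem power_savingT : ∃ C : ℝ, 0 < C ∧ ∀ x : ℕ, 2 ≤ x →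
    (((Icc 2 x).filter (fun n => HypT n ∧ ¬ n.Prime)).card : ℝ) ≤
      C * x / Real.log x ^ (5 / 4 : ℝ) := by
  obtain ⟨Ca, hCa, Ha⟩ := AAA
  obtain ⟨Cb, hCb, Hb⟩ := AAB
  obtain ⟨Cs, hCs, Hs⟩ := structure_main (1 / 8) (by norm_num)
  obtain ⟨Ct, hCt, Ht⟩ := AA_triv 16
  refine ⟨Ca + Cb + Cs + Ct + 12, by positivity, fun x hx => ?_⟩
  have hx2 : (2 : ℝ) ≤ x := by exact_mod_cast hx
  have hx0 : (0 : ℝ) < x := by linarith
  have hx1' : (1 : ℝ) ≤ x := by linarith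
  have hlx : 0 < Real.log x := Real.log_pos (by linarith)
  have hlp : 0 < Real.log x ^ (5 / 4 : ℝ) := Real.rpow_pos_of_pos hlx _
  have hxl : 0 ≤ (x : ℝ) / Real.log x ^ (5 / 4 : ℝ) := by positivity
  set G := (Icc 2 x).filter (fun n => HypT n ∧ ¬ n.Prime) with hG
  rcases lt_or_ge x 16 with hx16 | hx16
  · have h1 := Ht x hx hx16 G (fun n hn => by
      rw [hG, mem_filter, mem_Icc] at hn
      exact ⟨by omega, hn.1.2⟩)
    refine h1.trans ?_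
    rw [mul_div_assoc, mul_div_assoc]
    exact mul_le_mul_of_nonneg_right (by linarith) hxl
  have hx16' : (16 : ℝ) ≤ x := by exact_mod_cast hx16
  set G1 := (Icc 2 x).filter (fun n => GoodT n ∧ ¬ n.Prime ∧ (n % 4 = 1 ∨ n % 4 = 2 ∨
      ∃ q : ℕ, q.Prime ∧ q ∣ n ^ 2 + n + 1 ∧ (q : ℝ) ≤ (x : ℝ) ^ (1 - (1 / 8 : ℝ)))) with hG1
  set GQ := G.filter (fun n => IsSquare n) with hGQ
  set GS := (Icc 1 (Nat.sqrt x)) with hGS
  set R := G.filter (fun n => n ∉ G1 ∧ ¬ IsSquare n ∧ n ∉ GS) with hR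
  set Rp := R.filter (fun n => (n ^ 2 + n + 1).Prime) with hRp
  set Rc := R.filter (fun n => ¬ (n ^ 2 + n + 1).Prime) with hRc
  have hcov : G ⊆ G1 ∪ (GQ ∪ (GS ∪ (Rp ∪ Rc))) := by
    intro n hn
    simp only [mem_union]
    by_cases h1 : n ∈ G1
    · exact Or.inl h1
    by_cases h2 : IsSquare n
    · exact Or.inr (Or.inl (mem_filter.2 ⟨hn, h2⟩))
    by_cases h3 : n ∈ GS
    · exact Or.inr (Or.inr (Or.inl h3))
    have h4 : n ∈ R := mem_filter.2 ⟨hn, h1, h2, h3⟩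
    by_cases h5 : (n ^ 2 + n + 1).Prime
    · exact Or.inr (Or.inr (Or.inr (Or.inl (mem_filter.2 ⟨h4, h5⟩))))
    · exact Or.inr (Or.inr (Or.inr (Or.inr (mem_filter.2 ⟨h4, h5⟩))))
  have hc : (G.card : ℝ) ≤ G1.card + (GQ.card + (GS.card + (Rp.card + Rc.card))) := by
    have h1 : G.card ≤ G1.card + (GQ.card + (GS.card + (Rp.card + Rc.card))) := by
      refine (card_le_card hcov).trans ((card_union_le _ _).trans ?_)
      apply Nat.add_le_add_left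
      refine (card_union_le _ _).trans ?_
      apply Nat.add_le_add_left
      refine (card_union_le _ _).trans ?_
      apply Nat.add_le_add_left
      exact card_union_le _ _
    exact_mod_cast h1
  have e1 : (G1.card : ℝ) ≤ Cs * (x / Real.log x ^ (5 / 4 : ℝ)) := by
    refine (Hs x hx).trans (le_of_eq ?_)
    rw [mul_div_assoc]
  -- squares and small numbers
  have hsqrt2 : Real.sqrt x ≤ 6 * (x / Real.log x ^ (5 / 4 : ℝ)) := by
    rw [← mul_div_assoc, le_div_iff₀ hlp]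
    have h1 := rpow_five hx1'
    have h2 : Real.sqrt x = (x : ℝ) ^ (1 / 2 : ℝ) := Real.sqrt_eq_rpow _
    calc Real.sqrt x * Real.log x ^ (5 / 4 : ℝ) ≤ Real.sqrt x * (6 * (x : ℝ) ^ (1 / 2 : ℝ)) :=
          mul_le_mul_of_nonneg_left h1 (Real.sqrt_nonneg _)
      _ = 6 * (Real.sqrt x * Real.sqrt x) := by rw [← h2]; ring
      _ = 6 * x := by rw [Real.mul_self_sqrt hx0.le]
  have e2 : (GQ.card : ℝ) ≤ 6 * (x / Real.log x ^ (5 / 4 : ℝ)) := by
    have h1 := card_squares x GQ (fun n hn => by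
      rw [hGQ, mem_filter, hG, mem_filter, mem_Icc] at hn
      exact ⟨by omega, hn.1.1.2, hn.2⟩)
    have h2 : (GQ.card : ℝ) ≤ Nat.sqrt x := by exact_mod_cast h1
    exact (h2.trans Real.nat_sqrt_le_real_sqrt).trans hsqrt2
  have e3 : (GS.card : ℝ) ≤ 6 * (x / Real.log x ^ (5 / 4 : ℝ)) := by
    have h1 : GS.card = Nat.sqrt x := by
      rw [hGS, Nat.card_Icc]; omega
    rw [h1]
    exact Real.nat_sqrt_le_real_sqrt.trans hsqrt2
  -- facts on the remaining set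
  have hRf : ∀ n ∈ R, 2 ≤ n ∧ n ≤ x ∧ HypT n ∧ ¬ IsSquare n ∧ Nat.sqrt x < n ∧
      (n ^ 2 + n + 1) % 4 = 1 ∧
      ∀ q : ℕ, q.Prime → q ∣ n ^ 2 + n + 1 → (x : ℝ) ^ (7 / 8 : ℝ) < q := by
    intro n hn
    rw [hR, mem_filter, hG, mem_filter, mem_Icc] at hn
    obtain ⟨⟨⟨h1, h2⟩, h3, h4⟩, h5, h6, h7⟩ := hn
    have h8 : ¬ (n % 4 = 1 ∨ n % 4 = 2 ∨
      ∃ q : ℕ, q.Prime ∧ q ∣ n ^ 2 + n + 1 ∧ (q : ℝ) ≤ (x : ℝ) ^ (1 - (1 / 8 : ℝ))) := by
      intro hcon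
      exact h5 (mem_filter.2 ⟨mem_Icc.2 ⟨h1, h2⟩, h3.1, h4, hcon⟩)
    rw [show (1 : ℝ) - 1 / 8 = 7 / 8 by norm_num] at h8
    push Not at h8
    refine ⟨h1, h2, h3, h6, ?_, ?_, h8.2.2⟩
    · by_contra hcon
      push Not at hcon
      exact h7 (mem_Icc.2 ⟨by omega, hcon⟩)
    · have h9 : n % 4 = 0 ∨ n % 4 = 3 := by omega
      rcases h9 with h9 | h9
      · simp [Nat.add_mod, Nat.pow_mod, h9]
      · simp [Nat.add_mod, Nat.pow_mod, h9]
  have e4 : (Rp.card : ℝ) ≤ Cb * (x / Real.log x ^ (5 / 4 : ℝ)) := by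
    have h1 := Hb x hx Rp (fun n hn => by
      rw [hRp, mem_filter] at hn
      obtain ⟨h1, h2, h3, h4, h5, h6, h7⟩ := hRf n hn.1
      refine ⟨h2, ?_, ⟨h1, h3.2 hn.2, h4⟩, hn.2, h6⟩
      rw [← Real.sqrt_eq_rpow]
      have h8 : x < n * n := Nat.sqrt_lt.1 h5
      have h9 : (x : ℝ) ≤ (n : ℝ) ^ 2 := by
        have : (x : ℝ) < ((n * n : ℕ) : ℝ) := by exact_mod_cast h8
        push_cast at this
        nlinarith
      exact Real.sqrt_le_iff.2 ⟨by positivity, h9⟩)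
    refine h1.trans (le_of_eq ?_)
    rw [mul_div_assoc]
  have e5 : (Rc.card : ℝ) ≤ Ca * (x / Real.log x ^ (5 / 4 : ℝ)) := by
    have h1 := Ha x hx Rc (fun n hn => by
      rw [hRc, mem_filter] at hn
      obtain ⟨h1, h2, h3, h4, h5, h6, h7⟩ := hRf n hn.1
      refine ⟨by omega, h2, h3.1, ?_⟩
      have h16 : ((n ^ 2 + n + 1 : ℕ) : ℝ) ≤ ((x : ℝ) ^ (7 / 8 : ℝ)) ^ 3 := by
        have h8 : ((x : ℝ) ^ (7 / 8 : ℝ)) ^ 3 = (x : ℝ) ^ (21 / 8 : ℝ) := by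
          rw [← Real.rpow_natCast, ← Real.rpow_mul hx0.le]
          norm_num
        have h10 : (x : ℝ) ^ (21 / 8 : ℝ) = (x : ℝ) ^ (5 / 8 : ℝ) * (x : ℝ) ^ 2 := by
          rw [← Real.rpow_natCast (x : ℝ) 2, ← Real.rpow_add hx0]
          norm_num
        have h11 : (4 : ℝ) ≤ (x : ℝ) ^ (5 / 8 : ℝ) := by
          calc (4 : ℝ) = (16 : ℝ) ^ (1 / 2 : ℝ) := by
                rw [show (16 : ℝ) = 4 ^ (2 : ℝ) by norm_num, ← Real.rpow_mul (by norm_num)]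
                norm_num
            _ ≤ (x : ℝ) ^ (1 / 2 : ℝ) := Real.rpow_le_rpow (by norm_num) hx16' (by norm_num)
            _ ≤ (x : ℝ) ^ (5 / 8 : ℝ) := Real.rpow_le_rpow_of_exponent_le hx1' (by norm_num)
        have h12 : ((n ^ 2 + n + 1 : ℕ) : ℝ) ≤ 3 * (x : ℝ) ^ 2 := by
          have h13 : (n : ℝ) ≤ x := by exact_mod_cast h2
          have h14 : (0 : ℝ) ≤ n := Nat.cast_nonneg _
          push_cast
          nlinarith
        rw [h8, h10]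
        refine h12.trans ?_
        have h15 : (0 : ℝ) ≤ (x : ℝ) ^ 2 := by positivity
        nlinarith
      exact AA_two (v := n ^ 2 + n + 1)
        (t := (x : ℝ) ^ (7 / 8 : ℝ)) (by nlinarith) hn.2 (by positivity) h7 h16)
    refine h1.trans (le_of_eq ?_)
    rw [mul_div_assoc]
  calc (G.card : ℝ) ≤ _ := hc
    _ ≤ (Ca + Cb + Cs + 12) * (x / Real.log x ^ (5 / 4 : ℝ)) := by linarith
    _ ≤ (Ca + Cb + Cs + Ct + 12) * (x / Real.log x ^ (5 / 4 : ℝ)) :=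
        mul_le_mul_of_nonneg_right (by linarith) hxl
    _ = _ := by rw [mul_div_assoc]

end Pool.Agent.H12.SQ
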